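import Pool.Agent.Helper56.TH.Rec2

/-! MP_6f1bc5_lc, block T8: limits inferior from `Export`. -/

set_option linter.unusedSectionVars false

universe u

namespace Pool.Agent.Helper56.TH

open Classical

variable {M : Type u} [CommSemiring M] [LinearOrder M] [IsStrictOrderedRing M]
  [CanonicallyOrderedAdd M] {S : Set (Set M)}

/-- The minimum of `a` and of the values of `X` on `(u, v]`. -/
noncomputable def mnX (X : M → M) (a u v : M) : M :=
  lst (fun y => y ≤ a ∧ (a ≤ y ∨ ∃ r ≤ v, u < r ∧ X r ≤ y))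

theorem mnX_le_iff (h : Base S) {X : M → M} (hX : Fn S X) {a u v y : M} :
    mnX X a u v ≤ y ↔ a ≤ y ∨ ∃ r ≤ v, u < r ∧ X r ≤ y := by
  have hD : Dec S (fun y => y ≤ a ∧ (a ≤ y ∨ ∃ r ≤ v, u < r ∧ X r ≤ y)) := by
    refine h.and (h.le h.fn_id (h.fn_const a)) (h.or (h.le (h.fn_const a) h.fn_id) ?_)
    refine h.bex_le (h.fn_const v) (P := fun r y => u < r ∧ X r ≤ y) ?_
    exact h.and (h.lt (h.fn_const u) h.fn_p1) (h.le (h.fn_comp hX h.fn_p1) h.fn_p2)
  obtain ⟨⟨h1, h2⟩, h3⟩ := h.lst_spec hD ⟨a, le_rfl, Or.inl le_rfl⟩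
  constructor
  · intro hy
    rcases h2 with h2 | ⟨r, hr, hur, hxr⟩
    · exact Or.inl (h2.trans hy)
    · exact Or.inr ⟨r, hr, hur, hxr.trans hy⟩
  · intro hy
    by_contra hc
    have hlt : y < lst (fun y => y ≤ a ∧ (a ≤ y ∨ ∃ r ≤ v, u < r ∧ X r ≤ y)) := not_le.1 hc
    exact h3 y hlt ⟨hlt.le.trans h1, hy⟩

theorem mnX_le (h : Base S) {X : M → M} (hX : Fn S X) {a u v : M} : mnX X a u v ≤ a :=
  (mnX_le_iff h hX).2 (Or.inl le_rfl)

theorem mnX_le_of (h : Base S) {X : M → M} (hX : Fn S X) {a u v r : M} (hu : u < r) (hv : r ≤ v) :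
    mnX X a u v ≤ X r :=
  (mnX_le_iff h hX).2 (Or.inr ⟨r, hv, hu, le_rfl⟩)

theorem mnX_anti (h : Base S) {X : M → M} (hX : Fn S X) {a u v v' : M} (hv : v ≤ v') :
    mnX X a u v' ≤ mnX X a u v := by
  rw [mnX_le_iff h hX]
  rcases (mnX_le_iff h hX (a := a) (u := u) (v := v)).1 le_rfl with h1 | ⟨r, h1, h2, h3⟩
  · exact Or.inl h1
  · exact Or.inr ⟨r, h1.trans hv, h2, h3⟩

theorem mnX_attained (h : Base S) {X : M → M} (hX : Fn S X) {a u v : M} (ha : ∀ r, X r ≤ a)
    (huv : u < v) : ∃ r, u < r ∧ r ≤ v ∧ X r = mnX X a u v := by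
  rcases (mnX_le_iff h hX (a := a) (u := u) (v := v)).1 le_rfl with h1 | ⟨r, h1, h2, h3⟩
  · exact ⟨v, huv, le_rfl, le_antisymm ((ha v).trans h1) (mnX_le_of h hX huv le_rfl)⟩
  · exact ⟨r, h2, h1, le_antisymm h3 (mnX_le_of h hX h2 h1)⟩

theorem mnX_split (h : Base S) {X : M → M} (hX : Fn S X) {a u v w : M} (huv : u ≤ v)
    (hvw : v ≤ w) : mnX X a u w = min (mnX X a u v) (mnX X a v w) := by
  apply le_antisymm
  · refine le_min (mnX_anti h hX hvw) ?_
    rw [mnX_le_iff h hX]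
    rcases (mnX_le_iff h hX (a := a) (u := v) (v := w)).1 le_rfl with h1 | ⟨r, h1, h2, h3⟩
    · exact Or.inl h1
    · exact Or.inr ⟨r, h1, huv.trans_lt h2, h3⟩
  · rcases (mnX_le_iff h hX (a := a) (u := u) (v := w)).1 le_rfl with h1 | ⟨r, h1, h2, h3⟩
    · exact (min_le_left _ _).trans ((mnX_le h hX).trans h1)
    · rcases le_or_gt r v with hr | hr
      · exact (min_le_left _ _).trans ((mnX_le_of h hX h2 hr).trans h3)
      · exact (min_le_right _ _).trans ((mnX_le_of h hX hr h1).trans h3)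

theorem fn₂_mnX (h : Base S) {X : M → M} (hX : Fn S X) (a : M) : Fn₂ S (mnX X a) := by
  refine h.fn_lst_le (t := fun _ => a)
    (P := fun y p => a ≤ y ∨ ∃ r ≤ p2 p, p1 p < r ∧ X r ≤ y) (h.fn_const a) ?_
  refine h.or (h.le (h.fn_const a) h.fn_p1) ?_
  refine h.bex_le (h.fn_p2_comp h.fn_p2) (P := fun r q => p1 (p2 q) < r ∧ X r ≤ p1 q) ?_
  exact h.and (h.lt (h.fn_p1_comp (h.fn_p2_comp h.fn_p2)) h.fn_p1)
    (h.le (h.fn_comp hX h.fn_p1) (h.fn_p1_comp h.fn_p2))

/-- The triple is bad: its defect is not divisible by `q`. -/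
def BadT (q : M) (w : M → M) (L : M → M → M) (i j l : M) : Prop :=
  i < j ∧ j < l ∧ ¬ ∃ d ≤ w j + L i j + L j l, w j + L i j + L j l = L i l + q * d

theorem dec_badT (h : Base S) (q : M) {w : M → M} (hw : Fn S w) {L : M → M → M} (hL : Fn₂ S L)
    {f g k : M → M} (hf : Fn S f) (hg : Fn S g) (hk : Fn S k) :
    Dec S (fun x => BadT q w L (f x) (g x) (k x)) := by
  have hT : Fn S (fun x => w (g x) + L (f x) (g x) + L (g x) (k x)) :=
    h.fn_add (h.fn_add (h.fn_comp hw hg) (h.fn_comp₂ hL hf hg)) (h.fn_comp₂ hL hg hk)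
  refine h.and (h.lt hf hg) (h.and (h.lt hg hk) (h.not ?_))
  refine h.bex_le hT (P := fun d x => w (g x) + L (f x) (g x) + L (g x) (k x)
    = L (f x) (k x) + q * d) ?_
  exact h.eq (h.fn_comp hT h.fn_p2) (h.fn_add (h.fn_comp (h.fn_comp₂ hL hf hk) h.fn_p2)
    (h.fn_mul (h.fn_const q) h.fn_p1))

/-- There is a number beyond which no triple is bad, given that there are no `m` disjoint bad
triples. -/
theorem exists_no_bad (h : Base S) (q : M) (hq : 0 < q) {w : M → M} (hw : Fn S w)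
    {L : M → M → M} (hL : Fn₂ S L) (m : M)
    (hex : ∀ a b c : M → M, Fn S a → Fn S b → Fn S c → (∀ k < m, a k < b k ∧ b k < c k) →
        (∀ k, k + 1 < m → c k < a (k + 1)) → ∀ J, (∀ k < m, c k < J) →
        ∃ k < m, ∃ d, w (b k) + L (a k) (b k) + L (b k) (c k) = L (a k) (c k) + q * d) :
    ∃ b, ∀ i j l, b ≤ i → i < j → j < l → ∃ d, w j + L i j + L j l = L i l + q * d := by
  by_contra hcon
  push Not at hcon
  have hP : Dec₂ S (fun l x => ∃ j ≤ l, ∃ i ≤ j, x ≤ i ∧ BadT q w L i j l) := by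
    refine h.bex_le h.fn_p1 (P := fun j z => ∃ i ≤ j, p2 z ≤ i ∧ BadT q w L i j (p1 z)) ?_
    refine h.bex_le h.fn_p1 (P := fun i z => p2 (p2 z) ≤ i ∧ BadT q w L i (p1 z) (p1 (p2 z))) ?_
    refine h.and (h.le (h.fn_p2_comp (h.fn_p2_comp h.fn_p2)) h.fn_p1) ?_
    exact dec_badT h q hw hL h.fn_p1 (h.fn_p1_comp h.fn_p2) (h.fn_p1_comp (h.fn_p2_comp h.fn_p2))
  have hPe : ∀ x, ∃ l, ∃ j ≤ l, ∃ i ≤ j, x ≤ i ∧ BadT q w L i j l := by
    intro x
    obtain ⟨i, j, l, hi, hij, hjl, hd⟩ := hcon x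
    exact ⟨l, j, hjl.le, i, hij.le, hi, hij, hjl, fun ⟨d, _, hd'⟩ => hd d hd'⟩
  have hc' := h.fn_lst hP hPe
  obtain ⟨F, hF, hF0, hFs⟩ := h.exists_rec₁ 0
    (g := fun _ s => lst (fun l => ∃ j ≤ l, ∃ i ≤ j, s ≤ i ∧ BadT q w L i j l) + 1)
    (h.fn_comp (h.fn_add hc' (h.fn_const 1)) h.fn_p2)
  -- the third component
  obtain ⟨c, hcdef⟩ : ∃ c : M → M, c = fun k =>
    lst (fun l => ∃ j ≤ l, ∃ i ≤ j, F k ≤ i ∧ BadT q w L i j l) := ⟨_, rfl⟩
  have hc : Fn S c := by rw [hcdef]; exact h.fn_comp hc' hF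
  have hcs : ∀ k, F (k + 1) = c k + 1 := fun k => by rw [hFs, hcdef]
  have hcp : ∀ k, ∃ j ≤ c k, ∃ i ≤ j, F k ≤ i ∧ BadT q w L i j (c k) := by
    intro k
    rw [hcdef]
    exact (h.lst_spec (h.dec_left hP (F k)) (hPe (F k))).1
  -- the first component
  have hPa : Dec₂ S (fun i k => F k ≤ i ∧ ∃ j ≤ c k, BadT q w L i j (c k)) := by
    refine h.and (h.le (h.fn_comp hF h.fn_p2) h.fn_p1) ?_
    refine h.bex_le (h.fn_comp hc h.fn_p2) (P := fun j z => BadT q w L (p1 z) j (c (p2 z))) ?_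
    exact dec_badT h q hw hL (h.fn_p1_comp h.fn_p2) h.fn_p1
      (h.fn_comp hc (h.fn_p2_comp h.fn_p2))
  obtain ⟨a, hadef⟩ : ∃ a : M → M, a = fun k =>
    lst (fun i => i ≤ c k ∧ (F k ≤ i ∧ ∃ j ≤ c k, BadT q w L i j (c k))) := ⟨_, rfl⟩
  have ha : Fn S a := by rw [hadef]; exact h.fn_lst_le hc hPa
  have hap : ∀ k, F k ≤ a k ∧ ∃ j ≤ c k, BadT q w L (a k) j (c k) := by
    intro k
    obtain ⟨j, hj, i, hij, hFi, hbad⟩ := hcp k
    rw [hadef]
    exact (h.lst_le_spec hPa (t := c k) (x := k) ⟨i, hij.trans hj, hFi, j, hj, hbad⟩).2.1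
  -- the second component
  have hPb : Dec₂ S (fun j k => BadT q w L (a k) j (c k)) :=
    dec_badT h q hw hL (h.fn_comp ha h.fn_p2) h.fn_p1 (h.fn_comp hc h.fn_p2)
  obtain ⟨b, hbdef⟩ : ∃ b : M → M, b = fun k =>
    lst (fun j => j ≤ c k ∧ BadT q w L (a k) j (c k)) := ⟨_, rfl⟩
  have hb : Fn S b := by rw [hbdef]; exact h.fn_lst_le hc hPb
  have hbp : ∀ k, BadT q w L (a k) (b k) (c k) := by
    intro k
    rw [hbdef]
    exact (h.lst_le_spec hPb (t := c k) (x := k) (hap k).2).2.1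
  -- monotonicity
  have hFm : ∀ k, c k < F m ∨ m ≤ k := by
    intro k
    by_contra hk
    push Not at hk
    have : ∀ x, x ≤ m → k < x → c k < F x := by
      intro x
      refine h.ind (P := fun x => x ≤ m → k < x → c k < F x) ?_ ?_ ?_ x
      · exact h.imp (h.le h.fn_id (h.fn_const m)) (h.imp (h.lt (h.fn_const k) h.fn_id)
          (h.lt (h.fn_const (c k)) hF))
      · intro _ h0
        exact absurd h0 (not_lt.2 zero_le)
      · intro y ih hy hky
        rw [hcs]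
        rcases (h.lt_add_one_iff.1 hky).lt_or_eq with h1 | h1
        · have h2 := ih (le_trans le_self_add hy) h1
          have h3 : F y ≤ c y := (hap y).1.trans ((hbp y).1.le.trans (hbp y).2.1.le)
          exact h.lt_add_one_iff.2 (h2.le.trans h3)
        · rw [h1]
          exact h.lt_add_one_iff.2 le_rfl
    exact absurd (this m le_rfl hk.2) (not_lt.2 hk.1)
  obtain ⟨k, hk, d, hd⟩ := hex a b c ha hb hc (fun k _ => ⟨(hbp k).1, (hbp k).2.1⟩)
    (fun k _ => by
      have := (hap (k + 1)).1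
      rw [hcs] at this
      exact h.add_one_le_iff.1 this) (F m)
    (fun k hk => by
      rcases hFm k with h1 | h1
      · exact h1
      · exact absurd hk (not_lt.2 h1))
  refine (hbp k).2.2 ⟨d, ?_, hd⟩
  rw [hd]
  calc d = 1 * d := (one_mul d).symm
    _ ≤ q * d := mul_le_mul (h.pos_iff.1 hq) le_rfl zero_le zero_le
    _ ≤ _ := le_add_self

/-- Arithmetic core: `γ = β - min m₀ β` is determined modulo `q > a`. -/
theorem arith_core (h : Base S) {q a z m₀ β β' d d' : M} (hqa : a < q) (hβ : β ≤ a)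
    (hβ' : β' ≤ a) (h1 : z + β = min m₀ β + q * d) (h2 : z + β' = min m₀ β' + q * d') :
    β + min m₀ β' = β' + min m₀ β := by
  have key : ∀ x y e e' : M, x ≤ a → y ≤ a → z + x = min m₀ x + q * e →
      z + y = min m₀ y + q * e' → e < e' → False := by
    intro x y e e' hx hy h3 h4 hee
    obtain ⟨c, hc⟩ := exists_add_of_le (h.add_one_le_iff.2 hee)
    have h5 : min m₀ y ≤ y := min_le_right _ _
    have h6 : z + y = min m₀ y + (q * e + q + q * c) := by rw [h4, hc]; ring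
    have h7 : z + y + min m₀ x = z + x + (min m₀ y + q + q * c) := by rw [h6, h3]; ring
    have h8 : y + min m₀ x = x + (min m₀ y + q + q * c) := by
      have : z + (y + min m₀ x) = z + (x + (min m₀ y + q + q * c)) := by
        rw [← add_assoc, ← add_assoc]; exact h7
      exact add_left_cancel this
    have h9 : min m₀ x ≤ x := min_le_right _ _
    have h10 : y + min m₀ x ≤ a + x := add_le_add hy h9
    rw [h8] at h10
    have h11 : q + x ≤ x + (min m₀ y + q + q * c) := by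
      have : x + (min m₀ y + q + q * c) = (q + x) + (min m₀ y + q * c) := by ring
      rw [this]; exact le_self_add
    have h12 : q + x ≤ a + x := h11.trans h10
    exact absurd (le_of_add_le_add_right h12) (not_le.2 hqa)
  rcases lt_trichotomy d d' with hd | hd | hd
  · exact (key β β' d d' hβ hβ' h1 h2 hd).elim
  · subst hd
    have h3 : z + (β + min m₀ β') = z + (β' + min m₀ β) := by
      calc z + (β + min m₀ β') = (z + β) + min m₀ β' := by ring
        _ = (min m₀ β' + q * d) + min m₀ β := by rw [h1]; ring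
        _ = z + (β' + min m₀ β) := by rw [← h2]; ring
    exact add_left_cancel h3
  · exact (key β' β d' d hβ' hβ h2 h1 hd).elim

theorem lp_of_export (h : Base S) (hE : Export S) : LP S := by
  intro X hX a ha
  obtain ⟨p, hp⟩ := h.exists_pow
  have hlt : ∀ n, n < p n := by
    intro n
    refine h.ind (P := fun n => n < p n) (h.lt h.fn_id hp.fn) ?_ ?_ n
    · rw [hp.zero]; exact one_pos
    · intro x hx
      rw [hp.succ, two_mul]
      exact add_lt_add_of_lt_of_le hx (h.pos_iff.1 (lt_of_le_of_lt zero_le hx))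
  obtain ⟨lo, hi, W, m, hlo, hhi, hW, hlh, hhl, hWl, hex⟩ := hE p hp a
    (fun _ u v => mnX X a u v) (h.fn_comp (fn₂_mnX h hX a) h.fn_p2)
    (fun s u v v' hv => mnX_anti h hX hv)
  -- order facts
  have hord : ∀ i j, i < j → hi i < lo j := by
    intro i j
    refine h.ind (P := fun j => i < j → hi i < lo j) ?_ ?_ ?_ j
    · exact h.imp (h.lt (h.fn_const i) h.fn_id) (h.lt (h.fn_const (hi i)) hlo)
    · intro h0
      exact absurd h0 (not_lt.2 zero_le)
    · intro y ih hy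
      rcases (h.lt_add_one_iff.1 hy).lt_or_eq with h1 | h1
      · exact (ih h1).trans_le ((hlh y).trans (hhl y).le)
      · rw [h1]; exact hhl y
  have hjlo : ∀ j, j ≤ lo j := by
    intro j
    refine h.ind (P := fun j => j ≤ lo j) (h.le h.fn_id hlo) zero_le ?_ j
    intro y hy
    exact h.add_one_le_iff.2 (hy.trans_lt ((hlh y).trans_lt (hhl y)))
  have hmonohi : ∀ i j, i ≤ j → hi i ≤ hi j := by
    intro i j hij
    rcases hij.lt_or_eq with h1 | h1
    · exact (hord i j h1).le.trans (hlh j)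
    · rw [h1]
  -- no bad triples beyond b
  obtain ⟨b, hb⟩ := exists_no_bad h (p a) (lt_of_le_of_lt zero_le (hlt a))
    (w := fun j => W 0 j) (h.fn_right hW 0) (L := fun i j => mnX X a (hi i) (lo j))
    (h.fn_comp₂ (fn₂_mnX h hX a) (h.fn_comp hhi h.fn_p1) (h.fn_comp hlo h.fn_p2)) m
    (by
      intro A B C hA hB hC h1 h2 J h3
      obtain ⟨k, hk, d, hd⟩ := hex A B C hA hB hC h1 h2 J h3
      refine ⟨k, hk, d, ?_⟩
      rw [hWl (hi J) 0 (B k) (fun _ _ _ _ => rfl)] at hd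
      exact hd)
  -- the dichotomy
  have hdich : ∀ j l l', b < j → j < l → j < l' →
      mnX X a (hi j) (lo l) + min (mnX X a (hi b) (hi j)) (mnX X a (hi j) (lo l')) =
      mnX X a (hi j) (lo l') + min (mnX X a (hi b) (hi j)) (mnX X a (hi j) (lo l)) := by
    intro j l l' hbj hl hl'
    obtain ⟨d, hd⟩ := hb b j l le_rfl hbj hl
    obtain ⟨d', hd'⟩ := hb b j l' le_rfl hbj hl'
    rw [mnX_split h hX (hmonohi b j hbj.le) (hord j l hl).le] at hd
    rw [mnX_split h hX (hmonohi b j hbj.le) (hord j l' hl').le] at hd'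
    exact arith_core h (hlt a) (mnX_le h hX) (mnX_le h hX) hd hd'
  have hlam : ∀ j, ∃ r, hi j < r ∧ r ≤ lo (j + 1) ∧ X r = mnX X a (hi j) (lo (j + 1)) :=
    fun j => mnX_attained h hX ha (hhl j)
  by_cases hcase : ∃ j₁, b < j₁ ∧ ∀ j, j₁ ≤ j →
      mnX X a (hi b) (hi j) < mnX X a (hi j) (lo (j + 1))
  · -- Case 1
    obtain ⟨j₁, hbj, hj₁⟩ := hcase
    have hge : ∀ j, j₁ ≤ j → ∀ r, hi j < r → mnX X a (hi j) (lo (j + 1)) ≤ X r := by
      intro j hj r hr
      have hl : j < j + 1 + r := by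
        calc j < j + 1 := h.lt_add_one_iff.2 le_rfl
          _ ≤ j + 1 + r := le_self_add
      have hrl : r ≤ lo (j + 1 + r) := le_trans le_add_self (hjlo _)
      have h1 := hdich j (j + 1 + r) (j + 1) (hbj.trans_le hj) hl (h.lt_add_one_iff.2 le_rfl)
      rw [min_eq_left (hj₁ j hj).le] at h1
      have h2 : mnX X a (hi j) (lo (j + 1 + r)) ≤ X r := mnX_le_of h hX hr hrl
      by_contra hc
      push Not at hc
      -- h1 : beta(l) + m0 = lam + min m0 beta(l)
      rcases le_total (mnX X a (hi b) (hi j)) (mnX X a (hi j) (lo (j + 1 + r))) with h3 | h3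
      · rw [min_eq_left h3] at h1
        have h4 := add_right_cancel h1
        rw [h4] at h2
        exact absurd h2 (not_le.2 hc)
      · rw [min_eq_right h3, add_comm (mnX X a (hi j) (lo (j + 1)))] at h1
        have h4 := add_left_cancel h1
        exact absurd (hj₁ j hj) (by rw [h4]; exact lt_irrefl _)
    have hfn : Fn S (fun n => mnX X a (hi (j₁ + n)) (lo (j₁ + n + 1))) := by
      have h1 : Fn S (fun n => j₁ + n) := h.fn_add (h.fn_const j₁) h.fn_id
      exact h.fn_comp₂ (fn₂_mnX h hX a) (h.fn_comp hhi h1)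
        (h.fn_comp hlo (h.fn_add h1 (h.fn_const 1)))
    obtain ⟨n₀, hn₀⟩ := h.stab hfn (fun n => by
      obtain ⟨r, hr1, hr2, hr3⟩ := hlam (j₁ + (n + 1))
      rw [← hr3]
      refine hge _ le_self_add r (lt_of_le_of_lt (hmonohi _ _ ?_) hr1)
      rw [← add_assoc]; exact le_self_add) a (fun n => mnX_le h hX)
    refine ⟨mnX X a (hi (j₁ + n₀)) (lo (j₁ + n₀ + 1)), ⟨hi (j₁ + n₀) + 1, fun r hr => ?_⟩,
      fun B => ?_⟩
    · exact hge _ le_self_add r (h.add_one_le_iff.1 hr)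
    · obtain ⟨r, hr1, hr2, hr3⟩ := hlam (j₁ + (n₀ + B))
      refine ⟨r, ?_, ?_⟩
      · calc B ≤ j₁ + (n₀ + B) := le_trans le_add_self le_add_self
          _ ≤ lo (j₁ + (n₀ + B)) := hjlo _
          _ ≤ hi (j₁ + (n₀ + B)) := hlh _
          _ ≤ r := hr1.le
      · rw [hr3]; exact hn₀ (n₀ + B) le_self_add
  · -- Case 2
    push Not at hcase
    obtain ⟨g, ⟨r₀, hr₀, hg⟩, hmin⟩ := h.sigma_least
      (P := fun r y => hi b < r ∧ X r = y)
      (h.and (h.lt (h.fn_const (hi b)) h.fn_p1) (h.eq (h.fn_comp hX h.fn_p1) h.fn_p2))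
      ⟨X (hi b + 1), hi b + 1, h.lt_add_one_iff.2 le_rfl, rfl⟩
    refine ⟨g, ⟨hi b + 1, fun r hr => ?_⟩, fun B => ?_⟩
    · by_contra hc
      exact hmin (X r) (not_le.1 hc) ⟨r, h.add_one_le_iff.1 hr, rfl⟩
    · obtain ⟨j, hj, hA2⟩ := hcase (b + 1 + r₀ + B)
        (by
          have : b + 1 + r₀ + B = (b + 1) + (r₀ + B) := by ring
          rw [this]
          exact (h.lt_add_one_iff.2 le_rfl : b < b + 1).trans_le le_self_add)
      obtain ⟨r, hr1, hr2, hr3⟩ := hlam j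
      have hBj : B ≤ j := le_trans le_add_self hj
      have hrj : r₀ ≤ j := by
        have : b + 1 + r₀ + B = r₀ + (b + 1 + B) := by ring
        rw [this] at hj
        exact le_self_add.trans hj
      have hbj : b ≤ j := by
        have : b + 1 + r₀ + B = b + (1 + r₀ + B) := by ring
        rw [this] at hj
        exact le_self_add.trans hj
      refine ⟨r, ?_, ?_⟩
      · exact hBj.trans ((hjlo j).trans ((hlh j).trans hr1.le))
      · apply le_antisymm
        · rw [hr3]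
          refine hA2.trans ?_
          rw [← hg]
          exact mnX_le_of h hX hr₀ (hrj.trans ((hjlo j).trans (hlh j)))
        · by_contra hc
          exact hmin (X r) (not_le.1 hc) ⟨r, lt_of_le_of_lt (hmonohi b j hbj) hr1, rfl⟩

end Pool.Agent.Helper56.TH
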